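import Pool.Agent.Run7.h965.MT.Fin
import Pool.Agent.Run7.h965.Aff
import Pool.Agent.W68.Mil2

/-!
Milliken-Taylor systems in additive families of affine maps: existence of one exact system below
every block sequence.
-/

set_option autoImplicit false

namespace Pool.Agent.Run7.h965.MT

open Finset Pool.Agent.H752R3.MT Pool.Agent.W68.Mil Pool.Agent.W68.Her

/-- an additive family of primitive affine maps, with an additive size -/
structure Fam (M : Type) [AddCommMonoid M] where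
  Φ : M → ℤ × ℤ
  σ : M → ℕ
  map_zero : Φ 0 = (1, 0)
  map_add : ∀ x y, Φ (x + y) = ((Φ x).1 * (Φ y).1, (Φ x).2 + (Φ x).1 * (Φ y).2)
  prim : ∀ x, 1 ≤ (Φ x).1 ∧ IsCoprime (Φ x).1 (Φ x).2
  σ_zero : σ 0 = 0
  σ_add : ∀ x y, σ (x + y) = σ x + σ y
  proper : ∀ T : Finset (ℤ × ℤ), ∃ B, ∀ x, Φ x ∈ T → σ x ≤ B

variable {M : Type} [AddCommMonoid M] (A : Fam M)

theorem Fam.σ_nsmul (n : ℕ) (x : M) : A.σ (n • x) = n * A.σ x := by
  induction n with
  | zero => simp [A.σ_zero]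
  | succ n ih => rw [succ_nsmul, A.σ_add, ih]; ring

theorem Fam.σ_sum {ι : Type} (s : Finset ι) (f : ι → M) :
    A.σ (∑ i ∈ s, f i) = ∑ i ∈ s, A.σ (f i) := by
  classical
  induction s using Finset.induction_on with
  | empty => simp [A.σ_zero]
  | insert a s ha ih => rw [sum_insert ha, sum_insert ha, A.σ_add, ih]

/-- maps of positive size are not the identity -/
theorem Fam.ne_one {D : M} (hD : 1 ≤ A.σ D) : A.Φ D ≠ (1, 0) := by
  intro h
  have h1 : ∀ n : ℕ, A.Φ (n • D) = (1, 0) := by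
    intro n
    induction n with
    | zero => rw [zero_nsmul, A.map_zero]
    | succ n ih => rw [succ_nsmul, A.map_add, ih, h]; simp
  obtain ⟨B, hB⟩ := A.proper {(1, 0)}
  have h2 := hB ((B + 1) • D) (by rw [h1]; simp)
  rw [A.σ_nsmul] at h2
  nlinarith

theorem Fam.add_ne {x D : M} (hD : 1 ≤ A.σ D) : A.Φ (x + D) ≠ A.Φ x := by
  intro h
  apply A.ne_one hD
  rw [A.map_add] at h
  have h1 := congrArg Prod.fst h
  have h2 := congrArg Prod.snd h
  simp only at h1 h2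
  have h3 := (A.prim x).1
  ext
  · simp only
    have : (A.Φ x).1 * (A.Φ D).1 = (A.Φ x).1 * 1 := by rw [h1, mul_one]
    exact mul_left_cancel₀ (by omega) this
  · simp only
    have : (A.Φ x).1 * (A.Φ D).2 = (A.Φ x).1 * 0 := by rw [mul_zero]; linarith
    exact mul_left_cancel₀ (by omega) this

/-- differences in an exact family -/
theorem Fam.shift {ι : Type} {s : Set ι} {x y : ι → M} {z : M} (hxy : ∀ i ∈ s, x i = y i + z)
    (h : ExF ((fun i => A.Φ (x i)) '' s)) : ExF ((fun i => A.Φ (y i)) '' s) := by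
  have h1 := Pool.Agent.Run7.h965.Aff.exF_precomp h (A.Φ z).1 (A.Φ z).2 (A.prim z).1
  have e : {g : ℤ × ℤ | (g.1 * (A.Φ z).1, g.2 + g.1 * (A.Φ z).2) ∈ (fun i => A.Φ (x i)) '' s} =
      (fun i => A.Φ (y i)) '' s := by
    ext g
    simp only [Set.mem_ofPred_eq, Set.mem_image]
    have hz := (A.prim z).1
    constructor
    · rintro ⟨i, hi, h2⟩
      refine ⟨i, hi, ?_⟩
      rw [hxy i hi, A.map_add] at h2
      obtain ⟨e1, e2⟩ := Prod.mk.inj h2
      have e3 : (A.Φ (y i)).1 = g.1 := mul_right_cancel₀ (by omega) e1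
      ext
      · exact e3
      · rw [e3] at e2; linarith
    · rintro ⟨i, hi, rfl⟩
      refine ⟨i, hi, ?_⟩
      rw [hxy i hi, A.map_add]
  rwa [e] at h1

/-- the step number `u` of the system with coefficients `c 0, …, c (m - 1)` -/
def stp (v : ℕ → M) (m k : ℕ) (c : ℕ → ℕ) (Z : ℕ → Finset ℕ) (u : ℕ) : M :=
  ∑ l ∈ range m, c l • ∑ a ∈ Z (l * k + u), v a

/-- the positions of the system -/
def pos (v : ℕ → M) (m k : ℕ) (c : ℕ → ℕ) (Z : ℕ → Finset ℕ) (u : ℕ) : M :=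
  ∑ u' ∈ range u, stp v m k c Z u'

/-- exactness of the system formed by the first `m * k` blocks -/
def Ex (v : ℕ → M) (m k : ℕ) (c : ℕ → ℕ) (Z : ℕ → Finset ℕ) : Prop :=
  ExF ((fun u => A.Φ (pos v m k c Z u)) '' Set.Iic k)

theorem stp_congr {v : ℕ → M} {m k : ℕ} {c : ℕ → ℕ} {Z Z' : ℕ → Finset ℕ}
    (h : ∀ i < m * k, Z' i = Z i) {u : ℕ} (hu : u < k) : stp v m k c Z' u = stp v m k c Z u := by
  unfold stp
  refine sum_congr rfl fun l hl => ?_
  have hl' := mem_range.1 hl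
  rw [h (l * k + u) (by nlinarith)]

theorem pos_congr {v : ℕ → M} {m k : ℕ} {c : ℕ → ℕ} {Z Z' : ℕ → Finset ℕ}
    (h : ∀ i < m * k, Z' i = Z i) {u : ℕ} (hu : u ≤ k) : pos v m k c Z' u = pos v m k c Z u := by
  unfold pos
  refine sum_congr rfl fun u' hu' => ?_
  have := mem_range.1 hu'
  exact stp_congr h (by omega)

theorem Ex.congr {v : ℕ → M} {m k : ℕ} {c : ℕ → ℕ} {Z Z' : ℕ → Finset ℕ}
    (h : ∀ i < m * k, Z' i = Z i) (hE : Ex A v m k c Z) : Ex A v m k c Z' := by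
  unfold Ex at *
  have e : (fun u => A.Φ (pos v m k c Z' u)) '' Set.Iic k =
      (fun u => A.Φ (pos v m k c Z u)) '' Set.Iic k :=
    Set.image_congr fun u hu => by
      rw [pos_congr h hu]
  rwa [e]

/-- homogeneity for conditions on finitely many blocks -/
theorem homog (N : ℕ) (good : (ℕ → Finset ℕ) → Prop)
    (hdep : ∀ Z Z', (∀ i < N, Z' i = Z i) → good Z → good Z') (X : ℕ → Finset ℕ) (hX : Blk X) :
    ∃ Y, Blk Y ∧ Le Y X ∧
      ((∀ Z, Blk Z → Le Z Y → good Z) ∨ ∀ Z, Blk Z → Le Z Y → ¬ good Z) := by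
  obtain ⟨Y, h1, h2, h3⟩ := dichotomy
    {s | s.length = N ∧ ∀ Z, Blk Z → seg Z N = s → good Z} X hX
  refine ⟨Y, h1, h2, ?_⟩
  have hsegi : ∀ {Z Z' : ℕ → Finset ℕ} {n : ℕ}, seg Z' n = seg Z n → ∀ i < n, Z' i = Z i := by
    intro Z Z' n h i hi
    exact List.map_inj_left.1 h i (List.mem_range.2 hi)
  rcases h3 with h3 | h3
  · right
    intro Z hZ hZY hg
    refine h3 (seg Z N) ?_ ?_ ⟨by simp [seg], fun Z' _ hs => hdep Z Z' (hsegi hs) hg⟩
    · unfold seg
      rw [List.pairwise_map]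
      refine (List.pairwise_lt_range (n := N)).imp ?_
      intro a b hab
      exact hZ.lt hab
    · intro A hA
      unfold seg at hA
      obtain ⟨i, -, rfl⟩ := List.mem_map.1 hA
      exact hZY i
  · left
    intro Z hZ hZY
    obtain ⟨m, hm1, hm2⟩ := h3 Z hZ hZY
    have : m = N := by simpa [seg] using hm1
    subst this
    exact hm2 Z hZ rfl

theorem homog_many (K : ℕ) (N : ℕ → ℕ) (good : ℕ → (ℕ → Finset ℕ) → Prop)
    (hdep : ∀ k Z Z', (∀ i < N k, Z' i = Z i) → good k Z → good k Z') (X : ℕ → Finset ℕ)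
    (hX : Blk X) :
    ∃ Y, Blk Y ∧ Le Y X ∧ ∀ k ≤ K,
      ((∀ Z, Blk Z → Le Z Y → good k Z) ∨ ∀ Z, Blk Z → Le Z Y → ¬ good k Z) := by
  induction K with
  | zero =>
    obtain ⟨Y, h1, h2, h3⟩ := homog (N 0) (good 0) (hdep 0) X hX
    refine ⟨Y, h1, h2, fun k hk => ?_⟩
    rw [Nat.le_zero.1 hk]
    exact h3
  | succ K ih =>
    obtain ⟨Y, h1, h2, h3⟩ := ih
    obtain ⟨Y', h4, h5, h6⟩ := homog (N (K + 1)) (good (K + 1)) (hdep (K + 1)) Y h1
    refine ⟨Y', h4, h5.trans h2, fun k hk => ?_⟩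
    rcases Nat.lt_or_ge K k with h7 | h7
    · have : k = K + 1 := by omega
      rw [this]
      exact h6
    · exact (h3 k h7).imp (fun h Z hZ hZY => h Z hZ (hZY.trans h5))
        (fun h Z hZ hZY => h Z hZ (hZY.trans h5))

/-- enumeration of a finite set -/
theorem enum (K : ℕ) (S : Finset ℕ) (hS : ∀ i ∈ S, i < K) (k : ℕ) (hk : S.card = k + 1) :
    ∃ μ : ℕ → ℕ, StrictMono μ ∧ (∀ u ≤ k, μ u < K) ∧ μ '' Set.Iic k = (S : Set ℕ) := by
  classical
  let e := S.orderEmbOfFin hk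
  refine ⟨fun u => if h : u < k + 1 then e ⟨u, h⟩ else K + u, ?_, ?_, ?_⟩
  · refine strictMono_nat_of_lt_succ fun u => ?_
    by_cases h1 : u + 1 < k + 1
    · rw [dif_pos h1, dif_pos (by omega : u < k + 1)]
      exact e.strictMono (by rw [Fin.mk_lt_mk]; omega)
    · rw [dif_neg h1]
      by_cases h2 : u < k + 1
      · rw [dif_pos h2]
        have := hS _ (S.orderEmbOfFin_mem hk ⟨u, h2⟩)
        have h3 : (e ⟨u, h2⟩ : ℕ) < K := this
        omega
      · rw [dif_neg h2]; omega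
  · intro u hu
    beta_reduce
    rw [dif_pos (by omega : u < k + 1)]
    exact hS _ (S.orderEmbOfFin_mem hk _)
  · ext i
    simp only [Set.mem_image, Set.mem_Iic, mem_coe]
    constructor
    · rintro ⟨u, hu, rfl⟩
      rw [dif_pos (by omega : u < k + 1)]
      exact S.orderEmbOfFin_mem hk _
    · intro hi
      have : i ∈ Set.range e := by
        rw [Finset.range_orderEmbOfFin]
        exact hi
      obtain ⟨⟨u, hu⟩, hu2⟩ := this
      exact ⟨u, by omega, by rw [dif_pos hu]; exact hu2⟩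

theorem blk_disj {W : ℕ → Finset ℕ} (hW : Blk W) {i i' : ℕ} (hii : i ≠ i') :
    Disjoint (W i) (W i') := by
  rw [Finset.disjoint_left]
  intro a ha hb
  rcases Nat.lt_or_gt_of_ne hii with h | h
  · exact absurd (hW.lt h a ha a hb) (lt_irrefl a)
  · exact absurd (hW.lt h a hb a ha) (lt_irrefl a)

theorem sum_union {W : ℕ → Finset ℕ} (hW : Blk W) (v : ℕ → M) (G : Finset ℕ) :
    ∑ a ∈ G.biUnion W, v a = ∑ i ∈ G, ∑ a ∈ W i, v a :=
  Finset.sum_biUnion (fun _ _ _ _ hii => blk_disj hW hii)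

theorem Blk.reindex {Y : ℕ → Finset ℕ} (hY : Blk Y) {g : ℕ → ℕ} (hg : StrictMono g) :
    Blk (fun t => Y (g t)) :=
  ⟨fun t => hY.1 _, fun t => hY.lt (hg (Nat.lt_succ_self t))⟩

end Pool.Agent.Run7.h965.MT
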