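import Pool.Agent.Run7.h965.MT.Core

/-!
Existence of exact systems.
-/

set_option autoImplicit false

namespace Pool.Agent.Run7.h965.MT

open Finset Pool.Agent.H752R3.MT Pool.Agent.W68.Mil Pool.Agent.W68.Her

variable {M : Type} [AddCommMonoid M] (A : Fam M)

/-- the blocks belonging to a subset of the positions -/
def gq (m K k : ℕ) (μ : ℕ → ℕ) (t : ℕ) : Finset ℕ :=
  if t < m * k then (Ico (μ (t % k)) (μ (t % k + 1))).image (fun i => t / k * K + i)
  else {m * K + t}

theorem gq_blk {m K k : ℕ} {μ : ℕ → ℕ} (hμ : StrictMono μ) (hK : ∀ u ≤ k, μ u < K) :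
    Blk (gq m K k μ) := by
  refine ⟨fun t => ?_, fun t x hx y hy => ?_⟩
  · unfold gq
    split_ifs with h
    · exact (nonempty_Ico.2 (hμ (Nat.lt_succ_self _))).image _
    · exact singleton_nonempty _
  · unfold gq at hx hy
    by_cases h1 : t + 1 < m * k
    · have hk : 0 < k := by
        by_contra h0
        have : k = 0 := by omega
        rw [this, mul_zero] at h1
        omega
      rw [if_pos h1] at hy
      rw [if_pos (by omega : t < m * k)] at hx
      obtain ⟨i, hi, rfl⟩ := mem_image.1 hx
      obtain ⟨j, hj, rfl⟩ := mem_image.1 hy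
      rw [mem_Ico] at hi hj
      have hmod := Nat.mod_lt t hk
      have hdm := Nat.div_add_mod t k
      by_cases h2 : t % k + 1 < k
      · have e1 : (t + 1) / k = t / k := by
          rw [Nat.div_eq_iff hk]
          have : t / k * k = k * (t / k) := Nat.mul_comm _ _
          constructor
          · omega
          · omega
        have e2 : (t + 1) % k = t % k + 1 := by
          have h3 := Nat.div_add_mod (t + 1) k
          rw [e1] at h3
          omega
        rw [e2] at hj
        rw [e1]
        omega
      · have e1 : (t + 1) / k = t / k + 1 := by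
          rw [Nat.div_eq_iff hk]
          have : (t / k + 1) * k = k * (t / k) + k := by ring
          constructor
          · omega
          · omega
        rw [e1]
        have h4 : μ (t % k + 1) < K := hK _ (by omega)
        have h5 : (t / k + 1) * K = t / k * K + K := by ring
        omega
    · rw [if_neg h1, mem_singleton] at hy
      by_cases h2 : t < m * k
      · have hk : 0 < k := by
          by_contra h0
          have : k = 0 := by omega
          rw [this, mul_zero] at h2
          omega
        rw [if_pos h2] at hx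
        obtain ⟨i, hi, rfl⟩ := mem_image.1 hx
        rw [mem_Ico] at hi
        have hmod := Nat.mod_lt t hk
        have h3 : t / k < m := by
          rw [Nat.div_lt_iff_lt_mul hk]
          exact h2
        have h4 : μ (t % k + 1) < K := hK _ (by omega)
        have h5 : (t / k + 1) * K ≤ m * K := Nat.mul_le_mul_right K h3
        have h6 : (t / k + 1) * K = t / k * K + K := by ring
        omega
      · rw [if_neg h2, mem_singleton] at hx
        omega

theorem gq_val {m K k l u : ℕ} {μ : ℕ → ℕ} (hl : l < m) (hu : u < k) {Y : ℕ → Finset ℕ}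
    (hY : Blk Y) (v : ℕ → M) :
    ∑ a ∈ (gq m K k μ (l * k + u)).biUnion Y, v a =
      ∑ i ∈ Ico (μ u) (μ (u + 1)), ∑ a ∈ Y (l * K + i), v a := by
  have hk : 0 < k := by omega
  have h1 : l * k + u < m * k := by nlinarith
  have e1 : (l * k + u) / k = l := by
    rw [Nat.div_eq_iff hk]
    omega
  have e2 : (l * k + u) % k = u := by
    have h3 := Nat.div_add_mod (l * k + u) k
    rw [e1, Nat.mul_comm k l] at h3
    omega
  rw [sum_union hY]
  unfold gq
  rw [if_pos h1, e1, e2, sum_image (by intro a _ b _ h; simpa using h)]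

/-- the far blocks -/
def gf (τ P R : ℕ) (t : ℕ) : Finset ℕ :=
  if t < τ then {t} else Ico (P + (R + 1) * t) (P + (R + 1) * (t + 1))

theorem gf_blk {τ P R : ℕ} (hP : τ ≤ P + 1) : Blk (gf τ P R) := by
  refine ⟨fun t => ?_, fun t x hx y hy => ?_⟩
  · unfold gf
    split_ifs with h
    · exact singleton_nonempty _
    · refine nonempty_Ico.2 ?_
      nlinarith
  · unfold gf at hx hy
    by_cases h1 : t + 1 < τ
    · rw [if_pos h1, mem_singleton] at hy
      rw [if_pos (by omega : t < τ), mem_singleton] at hx
      omega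
    · rw [if_neg h1, mem_Ico] at hy
      by_cases h2 : t < τ
      · rw [if_pos h2, mem_singleton] at hx
        have : (R + 1) * (t + 1) = (R + 1) * t + R + 1 := by ring
        omega
      · rw [if_neg h2, mem_Ico] at hx
        omega

/-- below every block sequence there is an exact system -/
theorem exists_ex {v : ℕ → M} (hv : ∀ a, 1 ≤ A.σ (v a)) {m k : ℕ} (hm : 1 ≤ m) {c : ℕ → ℕ}
    (hc : ∀ l, 1 ≤ c l) (X : ℕ → Finset ℕ) (hX : Blk X) :
    ∃ Y, Blk Y ∧ Le Y X ∧ Ex A v m k c Y := by
  classical
  obtain ⟨K, hK⟩ := fin_exact (k + 1)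
  obtain ⟨Y, hY, hYX, hYh⟩ := homog_many K (fun k' => m * k') (fun k' Z => Ex A v m k' c Z)
    (fun k' Z Z' h hE => hE.congr A h) X hX
  have hσW : ∀ i, 1 ≤ A.σ (∑ a ∈ Y i, v a) := by
    intro i
    rw [A.σ_sum]
    obtain ⟨a, ha⟩ := hY.1 i
    exact (hv a).trans (single_le_sum (f := fun a => A.σ (v a)) (fun _ _ => Nat.zero_le _) ha)
  -- the `K` positions
  set w : ℕ → M := fun i => ∑ l ∈ range m, c l • ∑ a ∈ Y (l * K + i), v a with hw
  have hσw : ∀ i, 1 ≤ A.σ (w i) := by
    intro i
    rw [hw]
    beta_reduce
    rw [A.σ_sum]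
    have h1 : A.σ (c 0 • ∑ a ∈ Y (0 * K + i), v a) ≤
        ∑ l ∈ range m, A.σ (c l • ∑ a ∈ Y (l * K + i), v a) :=
      single_le_sum (f := fun l => A.σ (c l • ∑ a ∈ Y (l * K + i), v a))
        (fun _ _ => Nat.zero_le _) (mem_range.2 hm)
    rw [A.σ_nsmul] at h1
    have h2 := hc 0
    have h3 := hσW (0 * K + i)
    nlinarith
  set x : ℕ → M := fun i => ∑ i' ∈ range i, w i' with hx
  have hxlt : ∀ i j, i < j → A.Φ (x j) ≠ A.Φ (x i) := by
    intro i j hij
    have e : x j = x i + ∑ i' ∈ Ico i j, w i' := by
      rw [hx]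
      exact (Finset.sum_range_add_sum_Ico w hij.le).symm
    rw [e]
    apply A.add_ne
    rw [A.σ_sum]
    exact (hσw i).trans (single_le_sum (f := fun i => A.σ (w i)) (fun _ _ => Nat.zero_le _)
      (mem_Ico.2 ⟨le_rfl, hij⟩))
  obtain ⟨S, hS1, hS2⟩ := hK (fun i => A.Φ (x i)) (by
    intro i j hij
    simp only at hij
    rcases Nat.lt_trichotomy i j with h | h | h
    · exact absurd hij.symm (hxlt i j h)
    · exact Fin.ext h
    · exact absurd hij (hxlt j i h)) (fun i => A.prim _)
  -- a long system which is exact
  obtain ⟨k', hk'⟩ : ∃ k', S.card = k' + 1 := ⟨S.card - 1, by omega⟩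
  have hkk : k ≤ k' := by omega
  set S' : Finset ℕ := S.map Fin.valEmbedding with hS'
  obtain ⟨μ, hμ, hμK, hμS⟩ := enum K S' (by
    intro i hi
    obtain ⟨j, _, rfl⟩ := mem_map.1 hi
    exact j.2) k' (by rw [hS', card_map, hk'])
  have hk'K : k' ≤ K := by
    have h1 : ∀ u, u ≤ μ u := fun u => hμ.le_apply
    have h2 := hμK k' le_rfl
    have h3 := h1 k'
    omega
  set Z : ℕ → Finset ℕ := fun t => (gq m K k' μ t).biUnion Y with hZ
  have hGB := gq_blk (m := m) hμ hμK
  have hZB : Blk Z := hGB.comp hY
  have hZY : Le Z Y := fun t => ⟨_, hGB.1 t, rfl⟩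
  have hpos : ∀ u ≤ k', x (μ u) = pos v m k' c Z u + x (μ 0) := by
    intro u hu
    induction u with
    | zero => simp [pos]
    | succ u ih =>
      have h1 := ih (by omega)
      have h2 : x (μ (u + 1)) = x (μ u) + ∑ i ∈ Ico (μ u) (μ (u + 1)), w i := by
        rw [hx]
        exact (Finset.sum_range_add_sum_Ico w (hμ (Nat.lt_succ_self u)).le).symm
      have h3 : ∑ i ∈ Ico (μ u) (μ (u + 1)), w i = stp v m k' c Z u := by
        unfold stp
        rw [hw]
        beta_reduce
        rw [sum_comm]
        refine sum_congr rfl fun l hl => ?_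
        rw [hZ]
        beta_reduce
        rw [gq_val (mem_range.1 hl) (by omega) hY v, smul_sum]
      have h4 : pos v m k' c Z (u + 1) = pos v m k' c Z u + stp v m k' c Z u := by
        unfold pos
        rw [sum_range_succ]
      rw [h2, h3, h1, h4]
      abel
  have hEZ : Ex A v m k' c Z := by
    unfold Ex
    refine A.shift (x := fun u => x (μ u)) (z := x (μ 0)) (fun u hu => hpos u hu) ?_
    have e : (fun u => A.Φ (x (μ u))) '' Set.Iic k' = (fun i : Fin K => A.Φ (x i)) '' (S : Set (Fin K)) := by
      have e1 : (fun u => A.Φ (x (μ u))) '' Set.Iic k' = (fun i => A.Φ (x i)) '' (μ '' Set.Iic k') := by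
        rw [Set.image_image]
      rw [e1, hμS, hS', coe_map, Set.image_image]
      rfl
    rw [e]
    exact hS2
  have hall : ∀ Z, Blk Z → Le Z Y → Ex A v m k' c Z := by
    rcases hYh k' hk'K with h | h
    · exact h
    · exact absurd hEZ (h Z hZB hZY)
  -- the short system
  set g : ℕ → ℕ := fun t => if t < m * k then t / k * k' + t % k else m * k' + t with hg
  have hgm : StrictMono g := by
    refine strictMono_nat_of_lt_succ fun t => ?_
    rw [hg]
    beta_reduce
    by_cases h1 : t + 1 < m * k
    · have hk : 0 < k := by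
        by_contra h0
        have : k = 0 := by omega
        rw [this, mul_zero] at h1
        omega
      rw [if_pos h1, if_pos (by omega : t < m * k)]
      have hmod := Nat.mod_lt t hk
      have hdm := Nat.div_add_mod t k
      by_cases h2 : t % k + 1 < k
      · have e1 : (t + 1) / k = t / k := by
          rw [Nat.div_eq_iff hk]
          have : t / k * k = k * (t / k) := Nat.mul_comm _ _
          constructor
          · omega
          · omega
        have e2 : (t + 1) % k = t % k + 1 := by
          have h3 := Nat.div_add_mod (t + 1) k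
          rw [e1] at h3
          omega
        rw [e1, e2]
        omega
      · have e1 : (t + 1) / k = t / k + 1 := by
          rw [Nat.div_eq_iff hk]
          have : (t / k + 1) * k = k * (t / k) + k := by ring
          constructor
          · omega
          · omega
        rw [e1]
        have h5 : (t / k + 1) * k' = t / k * k' + k' := by ring
        omega
    · rw [if_neg h1]
      by_cases h2 : t < m * k
      · have hk : 0 < k := by
          by_contra h0
          have : k = 0 := by omega
          rw [this, mul_zero] at h2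
          omega
        rw [if_pos h2]
        have hmod := Nat.mod_lt t hk
        have h3 : t / k < m := by
          rw [Nat.div_lt_iff_lt_mul hk]
          exact h2
        have h5 : (t / k + 1) * k' ≤ m * k' := Nat.mul_le_mul_right k' h3
        have h6 : (t / k + 1) * k' = t / k * k' + k' := by ring
        omega
      · rw [if_neg h2]
        omega
  have hgv : ∀ l < m, ∀ u < k, g (l * k + u) = l * k' + u := by
    intro l hl u hu
    have hk : 0 < k := by omega
    have h1 : l * k + u < m * k := by nlinarith
    have e1 : (l * k + u) / k = l := by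
      rw [Nat.div_eq_iff hk]
      omega
    have e2 : (l * k + u) % k = u := by
      have h3 := Nat.div_add_mod (l * k + u) k
      rw [e1, Nat.mul_comm k l] at h3
      omega
    rw [hg]
    beta_reduce
    rw [if_pos h1, e1, e2]
  refine ⟨fun t => Y (g t), Blk.reindex hY hgm, fun t => hYX _, ?_⟩
  intro T hT
  obtain ⟨R, hR⟩ := A.proper T
  set τ : ℕ := (m - 1) * k' + k with hτ
  have hmk : (m - 1) * k' + k' = m * k' := by
    obtain ⟨m', rfl⟩ : ∃ m', m = m' + 1 := ⟨m - 1, by omega⟩
    rw [Nat.add_sub_cancel]
    ring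
  have hFB : Blk (gf τ (m * k') R) := gf_blk (by omega)
  set Z' : ℕ → Finset ℕ := fun t => (gf τ (m * k') R t).biUnion Y with hZ'
  have hZ'B : Blk Z' := hFB.comp hY
  have hZ'Y : Le Z' Y := fun t => ⟨_, hFB.1 t, rfl⟩
  have hE' := hall Z' hZ'B hZ'Y
  have hsame : ∀ u ≤ k, pos v m k c (fun t => Y (g t)) u = pos v m k' c Z' u := by
    intro u hu
    unfold pos
    refine sum_congr rfl fun u' hu' => ?_
    have hu'' := mem_range.1 hu'
    unfold stp
    refine sum_congr rfl fun l hl => ?_
    have hl' := mem_range.1 hl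
    have h1 : l * k' + u' < τ := by
      have : l * k' ≤ (m - 1) * k' := Nat.mul_le_mul_right k' (by omega)
      omega
    rw [hZ']
    beta_reduce
    rw [hgv l hl' u' (by omega)]
    unfold gf
    rw [if_pos h1, singleton_biUnion]
  have hlarge : ∀ u, k < u → u ≤ k' → A.Φ (pos v m k' c Z' u) ∉ T := by
    intro u hu1 hu2 hT'
    have h1 := hR _ hT'
    have h2 : A.σ (stp v m k' c Z' k) ≤ A.σ (pos v m k' c Z' u) := by
      unfold pos
      rw [A.σ_sum]
      exact single_le_sum (f := fun u => A.σ (stp v m k' c Z' u)) (fun _ _ => Nat.zero_le _)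
        (mem_range.2 hu1)
    have h3 : A.σ (c (m - 1) • ∑ a ∈ Z' ((m - 1) * k' + k), v a) ≤ A.σ (stp v m k' c Z' k) := by
      unfold stp
      rw [A.σ_sum]
      exact single_le_sum (f := fun l => A.σ (c l • ∑ a ∈ Z' (l * k' + k), v a))
        (fun _ _ => Nat.zero_le _) (mem_range.2 (by omega))
    rw [A.σ_nsmul] at h3
    have h4 : R + 1 ≤ A.σ (∑ a ∈ Z' ((m - 1) * k' + k), v a) := by
      rw [hZ']
      beta_reduce
      rw [sum_union hY, A.σ_sum]
      unfold gf
      rw [if_neg (by omega)]
      calc R + 1 = ∑ _i ∈ Ico (m * k' + (R + 1) * ((m - 1) * k' + k))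
            (m * k' + (R + 1) * ((m - 1) * k' + k + 1)), 1 := by
            rw [sum_const, Nat.card_Ico, smul_eq_mul, mul_one]
            have : (R + 1) * ((m - 1) * k' + k + 1) = (R + 1) * ((m - 1) * k' + k) + R + 1 := by
              ring
            omega
        _ ≤ _ := sum_le_sum fun i _ => hσW i
    have h5 := hc (m - 1)
    nlinarith
  refine (congr_inf (fun f hf => ?_) (hE' T hT))
  constructor
  · rintro ⟨u, hu, rfl⟩
    have hu' : u ≤ k' := hu
    by_cases h1 : u ≤ k
    · refine ⟨u, h1, ?_⟩
      beta_reduce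
      rw [hsame u h1]
    · exact absurd hf (hlarge u (by omega) hu')
  · rintro ⟨u, hu, rfl⟩
    have hu' : u ≤ k := hu
    refine ⟨u, show u ≤ k' by omega, ?_⟩
    beta_reduce
    rw [hsame u hu']

end Pool.Agent.Run7.h965.MT
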