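import Mathlib
import Pool.Agent.H361R2.GBridge
import Pool.Agent.H361R2.InfA6
import Pool.Agent.W68.Her

/-!
The exact form of the Maynard-Tao theorem for finite sets of primitive linear forms.
-/

set_option autoImplicit false

namespace Pool.Agent.Run7.h965.MT

open Finset Pool.Agent.H361R2 Pool.Agent.W68.Her

/-- a form which is not primitive has only finitely many prime values -/
theorem not_prime_of_not_coprime {g : ℤ × ℤ} (h1 : 1 ≤ g.1) (hgc : ¬ IsCoprime g.1 g.2) {n : ℕ}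
    (hn : g.1.natAbs + g.2.natAbs < n) : ¬ Nat.Prime (g.1 * n + g.2).toNat := by
  intro hprime
  have h4 : (n : ℤ) ≤ g.1 * n := by nlinarith [Int.natCast_nonneg n]
  have h5 : (g.1.natAbs : ℤ) < g.1 * n + g.2 := by omega
  have h6 : ((g.1 * n + g.2).toNat : ℤ) = g.1 * n + g.2 :=
    Int.toNat_of_nonneg (by omega)
  set d : ℕ := Int.gcd g.1 g.2 with hd
  have hd1 : (d : ℤ) ∣ g.1 := Int.gcd_dvd_left ..
  have hd2 : (d : ℤ) ∣ g.2 := Int.gcd_dvd_right ..
  have hdne : d ≠ 1 := fun h => hgc (Int.isCoprime_iff_gcd_eq_one.mpr h)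
  have h7 : d ∣ (g.1 * n + g.2).toNat := by
    have h8 : (d : ℤ) ∣ ((g.1 * n + g.2).toNat : ℤ) := by
      rw [h6]
      exact (hd1.mul_right _).add hd2
    exact Int.natCast_dvd_natCast.mp h8
  have h9 := (Nat.dvd_prime hprime).mp h7
  have h10 : (d : ℤ) ≤ g.1 := Int.le_of_dvd (by omega) hd1
  rcases h9 with h9 | h9
  · exact hdne h9
  · omega

theorem prime_toNat_iff {z : ℤ} : Nat.Prime z.toNat ↔ ∃ p : ℕ, p.Prime ∧ z = p := by
  constructor
  · intro hz
    refine ⟨_, hz, ?_⟩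
    rw [Int.toNat_of_nonneg]
    by_contra hcon
    rw [Int.toNat_of_nonpos (by omega)] at hz
    exact Nat.not_prime_zero hz
  · rintro ⟨p, hp, rfl⟩
    rwa [Int.toNat_natCast]

/-- the exact form for forms without local obstruction -/
theorem exact_adm {m k : ℕ} (hk : 1 ≤ k) (hMT : MTZ m k) (f : Fin k → ℤ × ℤ)
    (hinj : Function.Injective f) (hf : ∀ i, 1 ≤ (f i).1 ∧ IsCoprime (f i).1 (f i).2)
    (hadm : ∀ p : ℕ, p.Prime → ∃ n : ℕ, ∀ i, ¬ (p : ℤ) ∣ (f i).1 * n + (f i).2) :
    ∃ S : Finset (Fin k), m ≤ S.card ∧ ExF (f '' (S : Set (Fin k))) := by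
  classical
  by_contra hcon
  push Not at hcon
  have hcon' : ∀ S : Finset (Fin k), ∃ T : Finset (ℤ × ℤ), m ≤ S.card → (∀ g ∈ T, 1 ≤ g.1) ∧
      ¬ {n : ℕ | ∀ g ∈ T, (Nat.Prime (g.1 * n + g.2).toNat ↔ g ∈ f '' (S : Set (Fin k)))}.Infinite := by
    intro S
    by_cases hS : m ≤ S.card
    · have h1 := hcon S hS
      unfold ExF at h1
      push Not at h1
      obtain ⟨T, hT1, hT2⟩ := h1
      exact ⟨T, fun _ => ⟨hT1, Set.not_infinite.2 hT2⟩⟩
    · exact ⟨∅, fun h => absurd h hS⟩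
  choose T hT using hcon'
  -- the bad forms
  set bad : Finset (ℤ × ℤ) := ((univ : Finset (Finset (Fin k))).biUnion T).filter
    (fun g => 1 ≤ g.1 ∧ IsCoprime g.1 g.2 ∧ g ∉ Set.range f) with hbad
  set ext : ℕ → Fin k := fun i => if h : i < k then ⟨i, h⟩ else ⟨0, hk⟩ with hext
  have hexti : ∀ i : Fin k, ext i = i := fun i => by
    rw [hext]; simp
  choose! np hnp using hadm
  obtain ⟨W, r, Q, hW1, hWp, hWc, hQ⟩ := Inf.A6_class (fun i => (f (ext i)).1)
    (fun i => (f (ext i)).2) (fun i => (hf _).1) (fun i => (hf _).2) np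
    (fun p hp i => hnp p hp (ext i)) k bad (by
      intro g hg
      obtain ⟨_, h1, h2, h3⟩ := Finset.mem_filter.mp hg
      exact ⟨h1, h2, fun i h => h3 ⟨ext i, h.symm⟩⟩)
  have hWc' : ∀ i : Fin k, IsCoprime ((f i).1 * r + (f i).2) (W : ℤ) := fun i => by
    have := hWc i i.2
    rwa [hexti] at this
  have hWZ : (1 : ℤ) ≤ W := by exact_mod_cast hW1
  -- the restricted forms
  have hA : ∀ i : Fin k, (((f i).1 * W).toNat : ℤ) = (f i).1 * W := fun i =>
    Int.toNat_of_nonneg (by have := (hf i).1; nlinarith)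
  obtain ⟨S, hS, hinf⟩ := hMT (fun i => ((f i).1 * W).toNat) (fun i => (f i).1 * r + (f i).2)
    (fun i => by
      have h1 := hA i
      have h2 : (1 : ℤ) ≤ (f i).1 * W := by have := (hf i).1; nlinarith
      show 0 < ((f i).1 * W).toNat
      omega)
    (by
      intro i i' h
      simp only [Prod.mk.injEq] at h
      have h1 : (f i).1 * (W : ℤ) = (f i').1 * W := by
        rw [← hA i, ← hA i', h.1]
      have h2 : (f i).1 = (f i').1 := mul_right_cancel₀ (by omega) h1
      have h3 : (f i).2 = (f i').2 := by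
        have := h.2
        rw [h2] at this
        linarith
      exact hinj (Prod.ext h2 h3))
    (by
      intro p hp
      by_cases hpW : p ∣ W
      · refine ⟨0, fun i h => ?_⟩
        rw [mul_zero, zero_add] at h
        have h1 := hWc' i
        have h2 : (p : ℤ) ∣ W := Int.natCast_dvd_natCast.2 hpW
        have h3 := h1.isUnit_of_dvd' h h2
        exact (Nat.prime_iff_prime_int.1 hp).not_isUnit h3
      · have hkp : k < p := by
          by_contra hle
          exact hpW (hWp p hp (by omega))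
        obtain ⟨n, hn⟩ := exists_avoid' (m := k) hp hkp (fun i => (f i).1 * W)
          (fun i => (f i).1 * r + (f i).2) (by
            rintro i ⟨h1, h2⟩
            have hpI := Nat.prime_iff_prime_int.1 hp
            rcases hpI.dvd_or_dvd h1 with h3 | h3
            · have h4 : (p : ℤ) ∣ (f i).2 := by
                have := dvd_sub h2 (Dvd.dvd.mul_right h3 (r : ℤ))
                rwa [add_sub_cancel_left] at this
              exact hpI.not_isUnit ((hf i).2.isUnit_of_dvd' h3 h4)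
            · exact hpW (Int.natCast_dvd_natCast.1 h3))
        refine ⟨n, fun i => ?_⟩
        rw [hA i]
        exact hn i)
  obtain ⟨hT1, hT2⟩ := hT S hS
  apply hT2
  set Q' : ℕ := Q + ∑ g ∈ T S, (g.1.natAbs + g.2.natAbs) with hQ'
  set I := {n : ℕ | ∀ i, (∃ p : ℕ, p.Prime ∧
    (((((f i).1 * W).toNat : ℕ) : ℤ) * n + ((f i).1 * r + (f i).2) : ℤ) = p) ↔ i ∈ S} with hI
  have h3 : (I \ Set.Iic Q').Infinite := hinf.sdiff (Set.finite_Iic Q')
  have hinj2 : Set.InjOn (fun n : ℕ => W * n + r) (I \ Set.Iic Q') := by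
    intro a _ b _ hab
    simp only at hab
    have : W * a = W * b := by omega
    exact Nat.eq_of_mul_eq_mul_left hW1 this
  refine (h3.image hinj2).mono ?_
  rintro _ ⟨n, ⟨hn1, hn2⟩, rfl⟩ g hg
  have hnQ : Q' < n := by simpa using hn2
  have hbig : n ≤ W * n + r := by nlinarith
  simp only
  by_cases hgf : g ∈ Set.range f
  · obtain ⟨i, rfl⟩ := hgf
    rw [hinj.mem_set_image, mem_coe, ← hn1 i, prime_toNat_iff]
    have e : (f i).1 * ((W * n + r : ℕ) : ℤ) + (f i).2 =
        (((((f i).1 * W).toNat : ℕ) : ℤ) * n + ((f i).1 * r + (f i).2) : ℤ) := by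
      rw [hA i]; push_cast; ring
    rw [e]
  · have hgG : g ∉ f '' (S : Set (Fin k)) := fun h => hgf (Set.image_subset_range _ _ h)
    refine iff_of_false ?_ hgG
    have h1 : g.1.natAbs + g.2.natAbs ≤ ∑ g ∈ T S, (g.1.natAbs + g.2.natAbs) :=
      Finset.single_le_sum (f := fun g : ℤ × ℤ => g.1.natAbs + g.2.natAbs)
        (fun _ _ => Nat.zero_le _) hg
    by_cases hgc : IsCoprime g.1 g.2
    · have hgb : g ∈ bad := Finset.mem_filter.mpr
        ⟨mem_biUnion.2 ⟨S, mem_univ _, hg⟩, hT1 g hg, hgc, hgf⟩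
      refine hQ g hgb _ ?_ (by omega)
      exact (Nat.modEq_iff_dvd' (by omega : r ≤ W * n + r)).2 ⟨n, by omega⟩ |>.symm
    · exact not_prime_of_not_coprime (hT1 g hg) hgc (by omega)

/-- the exact form for arbitrary primitive forms -/
theorem fin_exact (m : ℕ) : ∃ K : ℕ, ∀ f : Fin K → ℤ × ℤ, Function.Injective f →
    (∀ i, 1 ≤ (f i).1 ∧ IsCoprime (f i).1 (f i).2) →
    ∃ S : Finset (Fin K), m ≤ S.card ∧ ExF (f '' (S : Set (Fin K))) := by
  classical
  obtain ⟨k, hk, hMT⟩ := mtz_exists (m + 1)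
  have hMT' : MTZ m k := by
    intro A B hA hinj hadm
    obtain ⟨S, hS, hinf⟩ := hMT A B hA hinj hadm
    exact ⟨S, by omega, hinf⟩
  set P : ℕ := k.factorial with hP
  have hP0 : P ≠ 0 := Nat.factorial_ne_zero k
  have : NeZero P := ⟨hP0⟩
  refine ⟨Fintype.card (ZMod P × ZMod P) * k, fun f hinj hf => ?_⟩
  obtain ⟨y, hy⟩ := Fintype.exists_le_card_fiber_of_mul_le_card
    (fun i => (((f i).1 : ZMod P), ((f i).2 : ZMod P))) (n := k) (by simp)
  obtain ⟨U, hU1, hU2⟩ := Finset.exists_subset_card_eq hy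
  let e := U.orderEmbOfFin hU2
  have he : ∀ i, e i ∈ U := fun i => Finset.orderEmbOfFin_mem U hU2 i
  have hcl : ∀ i, (((f (e i)).1 : ZMod P), ((f (e i)).2 : ZMod P)) = y := fun i =>
    (Finset.mem_filter.1 (hU1 (he i))).2
  obtain ⟨S, hS1, hS2⟩ := exact_adm (by omega) hMT' (fun i => f (e i))
    (fun i i' h => e.injective (hinj h)) (fun i => hf _) (by
      intro p hp
      by_cases hpk : p ≤ k
      · have i0 : Fin k := ⟨0, by omega⟩
        obtain ⟨n, hn⟩ := exists_avoid' (m := 1) hp hp.one_lt (fun _ => (f (e i0)).1)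
          (fun _ => (f (e i0)).2) (fun _ => by
            rintro ⟨h1, h2⟩
            exact (Nat.prime_iff_prime_int.1 hp).not_isUnit ((hf (e i0)).2.isUnit_of_dvd' h1 h2))
        refine ⟨n, fun i h => hn 0 ?_⟩
        have h1 := (hcl i).trans (hcl i0).symm
        have hpP : (p : ℤ) ∣ (P : ℤ) := Int.natCast_dvd_natCast.2 ((hp.dvd_factorial).2 hpk)
        have h2 : (P : ℤ) ∣ (f (e i0)).1 - (f (e i)).1 :=
          (ZMod.intCast_eq_intCast_iff_dvd_sub _ _ P).1 (congrArg Prod.fst h1)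
        have h3 : (P : ℤ) ∣ (f (e i0)).2 - (f (e i)).2 :=
          (ZMod.intCast_eq_intCast_iff_dvd_sub _ _ P).1 (congrArg Prod.snd h1)
        have h4 : (f (e i0)).1 * (n : ℤ) + (f (e i0)).2 = ((f (e i0)).1 - (f (e i)).1) * n +
          ((f (e i0)).2 - (f (e i)).2) + ((f (e i)).1 * n + (f (e i)).2) := by ring
        rw [h4]
        exact dvd_add (dvd_add ((hpP.trans h2).mul_right _) (hpP.trans h3)) h
      · obtain ⟨n, hn⟩ := exists_avoid' (m := k) hp (by omega) (fun i => (f (e i)).1)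
          (fun i => (f (e i)).2) (by
            rintro i ⟨h1, h2⟩
            exact (Nat.prime_iff_prime_int.1 hp).not_isUnit ((hf (e i)).2.isUnit_of_dvd' h1 h2))
        exact ⟨n, hn⟩)
  refine ⟨S.map e.toEmbedding, by rw [card_map]; exact hS1, ?_⟩
  have h5 : f '' ((S.map e.toEmbedding : Finset _) : Set _) =
      (fun i => f (e i)) '' (S : Set (Fin k)) := by
    rw [coe_map, Set.image_image]
    rfl
  rw [h5]
  exact hS2

end Pool.Agent.Run7.h965.MT
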