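import Pool.Agent.Run7.h965.MT.Main

/-!
Iterates of the maps `x ↦ a + d x`.
-/

set_option autoImplicit false

namespace Pool.Agent.Run7.h965.MT

open Finset Pool.Agent.H752R3.MT Pool.Agent.W68.Mil Pool.Agent.W68.Her

/-- the pair `(A, D)` of the `s`-th iterate `x ↦ A + D x` of `x ↦ a + d x` -/
def iter (a d : ℤ) (s : ℕ) : ℤ × ℤ := (a * ∑ i ∈ range s, d ^ i, d ^ s)

theorem iter_prim {a d : ℤ} (hd : 1 ≤ d) (had : Int.gcd a d = 1) (s : ℕ) :
    1 ≤ (iter a d s).2 ∧ IsCoprime (iter a d s).2 (iter a d s).1 := by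
  unfold iter
  refine ⟨one_le_pow₀ hd, ?_⟩
  rcases s with _ | s
  · simp only [pow_zero, range_zero, sum_empty, mul_zero]
    exact isCoprime_one_left
  · apply IsCoprime.pow_left
    apply IsCoprime.mul_right
    · exact (Int.isCoprime_iff_gcd_eq_one.2 had).symm
    · rw [sum_range_succ']
      have e : ∑ i ∈ range s, d ^ (i + 1) + d ^ 0 = d * ∑ i ∈ range s, d ^ i + 1 := by
        rw [mul_sum, pow_zero]
        congr 1
        exact sum_congr rfl fun i _ => by ring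
      rw [e]
      exact ⟨-∑ i ∈ range s, d ^ i, 1, by ring⟩

theorem le_iter {a d : ℤ} (hd : 1 ≤ d) (had : Int.gcd a d = 1) (h1 : (a, d) ≠ (0, 1)) (s : ℕ) :
    (s : ℤ) ≤ |(iter a d s).1| + |(iter a d s).2| := by
  unfold iter
  have ha : a ≠ 0 := by
    rintro rfl
    rw [Int.gcd_zero_left] at had
    apply h1
    have : d = 1 := by omega
    rw [this]
  have h2 : (s : ℤ) ≤ ∑ i ∈ range s, d ^ i := by
    calc (s : ℤ) = ∑ _i ∈ range s, (1 : ℤ) := by simp
      _ ≤ _ := sum_le_sum fun i _ => one_le_pow₀ hd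
  have h3 : (s : ℤ) ≤ |a * ∑ i ∈ range s, d ^ i| := by
    rw [abs_mul]
    have h4 : 1 ≤ |a| := Int.one_le_abs ha
    have h5 := le_abs_self (∑ i ∈ range s, d ^ i)
    have h6 : (0 : ℤ) ≤ s := Int.natCast_nonneg s
    nlinarith
  have h7 := abs_nonneg (d ^ s)
  simp only
  linarith

/-- the iterates of one map -/
def iterFam (a d : ℤ) (hd : 1 ≤ d) (had : Int.gcd a d = 1) (h1 : (a, d) ≠ (0, 1)) : Fam ℕ where
  Φ s := ((iter a d s).2, (iter a d s).1)
  σ s := s
  map_zero := by simp [iter]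
  map_add s t := by
    unfold iter
    simp only [Prod.mk.injEq]
    constructor
    · rw [pow_add]
    · rw [sum_range_add]
      have e : ∑ x ∈ range t, d ^ (s + x) = d ^ s * ∑ x ∈ range t, d ^ x := by
        rw [mul_sum]
        exact sum_congr rfl fun i _ => pow_add _ _ _
      rw [e]
      ring
  prim s := iter_prim hd had s
  σ_zero := rfl
  σ_add _ _ := rfl
  proper T := by
    refine ⟨T.sup fun f => f.1.natAbs + f.2.natAbs, fun s hs => ?_⟩
    have h2 := Finset.le_sup (f := fun f : ℤ × ℤ => f.1.natAbs + f.2.natAbs) hs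
    have h3 := le_iter hd had h1 s
    rw [Int.abs_eq_natAbs, Int.abs_eq_natAbs] at h3
    have h4 : s ≤ (iter a d s).2.natAbs + (iter a d s).1.natAbs := by omega
    exact h4.trans h2

/-- exact chains of primes in an orbit -/
def ExactChain (a d : ℤ) (k : ℕ) (s : ℕ → ℕ) : Prop :=
  ∀ E : Finset (ℤ × ℤ), (∀ e ∈ E, 1 ≤ e.2) →
    {q : ℕ | q.Prime ∧ ∀ e ∈ E, ((∃ p : ℕ, p.Prime ∧ (p : ℤ) = e.1 + e.2 * q) ↔
      ∃ u ≤ k, e = iter a d (∑ u' ∈ range u, s u'))}.Infinite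

theorem ExactChain.congr {a d : ℤ} {k : ℕ} {s s' : ℕ → ℕ} (h : ExactChain a d k s)
    (hs : ∀ u < k, s u = s' u) : ExactChain a d k s' := by
  intro E hE
  refine (h E hE).mono ?_
  rintro q ⟨h1, h2⟩
  refine ⟨h1, fun e he => ?_⟩
  rw [h2 e he]
  have e : ∀ u ≤ k, ∑ u' ∈ range u, s u' = ∑ u' ∈ range u, s' u' := by
    intro u hu
    exact sum_congr rfl fun u' hu' => hs u' (by have := mem_range.1 hu'; omega)
  constructor
  · rintro ⟨u, hu, h3⟩; exact ⟨u, hu, by rw [h3, e u hu]⟩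
  · rintro ⟨u, hu, h3⟩; exact ⟨u, hu, by rw [h3, e u hu]⟩

/-- the hypotheses and the conclusion of the question for the pair `e` -/
def Good (e : ℤ × ℤ) : Prop :=
  1 ≤ e.2 ∧ Int.gcd e.1 e.2 = 1 ∧ 2 ∣ e.1 * e.2 ∧
    {q : ℕ | q.Prime ∧ ∃ p : ℕ, p.Prime ∧ (p : ℤ) = e.1 + e.2 * q}.Infinite

theorem good_of_inf {e : ℤ × ℤ} (h1 : 1 ≤ e.2) (h2 : Int.gcd e.1 e.2 = 1)
    (h3 : {q : ℕ | q.Prime ∧ ∃ p : ℕ, p.Prime ∧ (p : ℤ) = e.1 + e.2 * q}.Infinite) : Good e := by
  refine ⟨h1, h2, ?_, h3⟩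
  by_contra hodd
  apply h3
  have hA : ¬ 2 ∣ e.1 := fun h => hodd (h.mul_right _)
  have hD : ¬ 2 ∣ e.2 := fun h => hodd (h.mul_left _)
  refine (Set.finite_Iic (2 + e.1.natAbs)).subset ?_
  rintro q ⟨hq, p, hp, hpe⟩
  show q ≤ 2 + e.1.natAbs
  rcases hq.eq_two_or_odd with h4 | h4
  · omega
  · have h5 : p = 2 := by
      rcases hp.eq_two_or_odd with h5 | h5
      · exact h5
      · exfalso
        have h6 : (2 : ℤ) ∣ e.1 + e.2 * q := by
          obtain ⟨x, hx⟩ : ∃ x, e.1 = 2 * x + 1 := ⟨e.1 / 2, by omega⟩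
          obtain ⟨y, hy⟩ : ∃ y, e.2 = 2 * y + 1 := ⟨e.2 / 2, by omega⟩
          obtain ⟨z, hz⟩ : ∃ z : ℤ, (q : ℤ) = 2 * z + 1 := ⟨q / 2, by omega⟩
          rw [hx, hy, hz]
          exact ⟨x + 2 * y * z + y + z + 1, by ring⟩
        omega
    rw [h5] at hpe
    have h6 : (q : ℤ) ≤ e.2 * q := by
      have := Int.natCast_nonneg q
      nlinarith
    omega

theorem ExactChain.good {a d : ℤ} (hd : 1 ≤ d) (had : Int.gcd a d = 1) {k : ℕ} {s : ℕ → ℕ}
    (h : ExactChain a d (k + 1) s) : Good (iter a d (s 0)) := by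
  have hp := iter_prim hd had (s 0)
  refine good_of_inf hp.1 ?_ ?_
  · rw [Int.gcd_comm]
    exact Int.isCoprime_iff_gcd_eq_one.1 hp.2
  · refine (h {iter a d (s 0)} (by
      intro e he
      rw [mem_singleton] at he
      rw [he]
      exact hp.1)).mono ?_
    rintro q ⟨h1, h2⟩
    refine ⟨h1, (h2 _ (mem_singleton_self _)).2 ⟨1, by omega, ?_⟩⟩
    simp

theorem exactChain_of {a d : ℤ} (hd : 1 ≤ d) (had : Int.gcd a d = 1) (h1 : (a, d) ≠ (0, 1))
    {t : ℕ → ℕ} {m k : ℕ} {c : ℕ → ℕ} {W F : ℕ → Finset ℕ} (hW : Blk W)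
    (hE : Ex (iterFam a d hd had h1) t m k c (fun t => (F t).biUnion W)) :
    ExactChain a d k (fun u => ∑ l ∈ range m, c l * ∑ i ∈ F (l * k + u), ∑ x ∈ W i, t x) := by
  classical
  intro E hE1
  have h2 := hE (insert (1, 0) (E.image fun e => (e.2, e.1))) (by
    intro f hf
    rcases mem_insert.1 hf with h3 | h3
    · rw [h3]
    · obtain ⟨e, he, rfl⟩ := mem_image.1 h3
      exact hE1 e he)
  have hpos : ∀ u, pos t m k c (fun t => (F t).biUnion W) u =
      ∑ u' ∈ range u, ∑ l ∈ range m, c l * ∑ i ∈ F (l * k + u'), ∑ x ∈ W i, t x := by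
    intro u
    unfold pos stp
    refine sum_congr rfl fun u' _ => sum_congr rfl fun l _ => ?_
    rw [sum_union hW, smul_eq_mul]
  refine h2.mono ?_
  intro q hq
  constructor
  · have h3 := hq (1, 0) (mem_insert_self _ _)
    simp only [one_mul, add_zero, Int.toNat_natCast] at h3
    rw [h3]
    refine ⟨0, Nat.zero_le _, ?_⟩
    show (iterFam a d hd had h1).Φ (pos t m k c (fun t => (F t).biUnion W) 0) = (1, 0)
    unfold pos
    rw [sum_range_zero]
    exact (iterFam a d hd had h1).map_zero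
  · intro e he
    have h3 := hq (e.2, e.1) (mem_insert_of_mem (mem_image_of_mem _ he))
    rw [prime_toNat_iff] at h3
    have e1 : (∃ p : ℕ, p.Prime ∧ (p : ℤ) = e.1 + e.2 * q) ↔
        ∃ p : ℕ, p.Prime ∧ ((e.2, e.1) : ℤ × ℤ).1 * (q : ℤ) + ((e.2, e.1) : ℤ × ℤ).2 = p := by
      simp only
      constructor
      · rintro ⟨p, hp, h4⟩; exact ⟨p, hp, by rw [h4]; ring⟩
      · rintro ⟨p, hp, h4⟩; exact ⟨p, hp, by rw [← h4]; ring⟩
    rw [e1, h3]
    simp only [Set.mem_image, Set.mem_Iic]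
    constructor
    · rintro ⟨u, hu, h4⟩
      refine ⟨u, hu, ?_⟩
      rw [hpos] at h4
      have h5 : ((iter a d _).2, (iter a d _).1) = (e.2, e.1) := h4
      obtain ⟨e2, e3⟩ := Prod.mk.inj h5
      exact Prod.ext e3.symm e2.symm
    · rintro ⟨u, hu, h4⟩
      refine ⟨u, hu, ?_⟩
      rw [hpos, h4]
      rfl

/-- bounds for the products -/
def hp (t : ℕ → ℕ → ℕ) (h : ℕ → ℕ) (N : ℕ) : ℕ :=
  1 + h N + (1 + ∑ j ∈ range (N + 1), ∑ x ∈ range (N + 1), t j x) ^ (N + 1)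

theorem main_iter (t : ℕ → ℕ → ℕ) (ht : ∀ j i, 1 ≤ t j i) (a d : ℕ → ℤ) (hd : ∀ j, 1 ≤ d j)
    (had : ∀ j, Int.gcd (a j) (d j) = 1) (h1 : ∀ j, (a j, d j) ≠ (0, 1)) (h : ℕ → ℕ) :
    ∃ W : ℕ → Finset ℕ, (∀ i, (W i).Nonempty) ∧ (∀ i, ∀ x ∈ W i, ∀ y ∈ W (i + 1), x < y) ∧
      (∀ (j : ℕ) (F : Finset ℕ), F.Nonempty → (∀ i ∈ F, j ≤ i) →
        ExactChain (a j) (d j) 1 (fun _ => ∑ i ∈ F, ∑ x ∈ W i, t j x) ∧
        ExactChain (a j) (d j) 1 (fun _ => ∏ i ∈ F, ∑ x ∈ W i, t j x)) ∧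
      ∀ (j k m : ℕ) (c : ℕ → ℕ), 1 ≤ m → (∀ l < m, 1 ≤ c l) →
        ∀ F : ℕ → Finset ℕ, (∀ r < m * k, (F r).Nonempty) → (∀ r < m * k, ∀ i ∈ F r, j ≤ i) →
          (∀ r, r + 1 < m * k → ∀ i ∈ F r, ∀ i' ∈ F (r + 1), i < i') →
          (∃ i, ∃ b ∈ W i, m ≤ h b ∧ k ≤ h b ∧ (∀ l < m, c l ≤ h b) ∧ ∀ i' ∈ F 0, i < i') →
          ExactChain (a j) (d j) k
            (fun u => ∑ l ∈ range m, c l * ∑ i ∈ F (l * k + u), ∑ x ∈ W i, t j x) := by
  classical
  obtain ⟨W, hW, hmain⟩ := main_thin (M := fun _ => ℕ)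
    (fun j => iterFam (a j) (d j) (hd j) (had j) (h1 j)) t (fun j x => ht j x) (hp t h)
  have hW1 := hW.1
  have hlt : ∀ {i j : ℕ}, i < j → ∀ a ∈ W i, ∀ b ∈ W j, a < b := fun hij => hW.lt hij
  refine ⟨W, hW.1, hW.2, fun j F hF hjF => ⟨?_, ?_⟩, ?_⟩
  · have h2 := hmain j 1 1 (fun _ => 1) le_rfl (fun _ _ => le_rfl) (fun _ => F) (fun _ _ => hF)
      (fun _ _ => hjF) (fun r hr => by omega) (Or.inl ⟨rfl, rfl, rfl⟩)
    exact (exactChain_of (hd j) (had j) (h1 j) hW h2).congr fun u _ => by simp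
  · set X := F.max' hF with hX
    have hXF : X ∈ F := F.max'_mem hF
    obtain ⟨c, hc⟩ : ∃ c, c = ∏ i ∈ F.erase X, ∑ x ∈ W i, t j x := ⟨_, rfl⟩
    have hc1 : 1 ≤ c := by
      rw [hc]
      apply Nat.succ_le_of_lt
      apply prod_pos
      intro i _
      obtain ⟨x, hx⟩ := hW1 i
      exact sum_pos (fun x _ => ht j x) ⟨x, hx⟩
    have hprod : ∏ i ∈ F, ∑ x ∈ W i, t j x = c * ∑ x ∈ W X, t j x := by
      rw [hc, prod_erase_mul _ _ hXF]
    have hcc : Adm (hp t h) W 1 1 (fun _ => c) {X} := by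
      rcases (F.erase X).eq_empty_or_nonempty with he | hne
      · left
        refine ⟨rfl, rfl, ?_⟩
        beta_reduce
        rw [hc, he, prod_empty]
      · right
        set i₁ := (F.erase X).max' hne with hi₁
        have hi₁F : i₁ ∈ F.erase X := (F.erase X).max'_mem hne
        have hi₁M : i₁ < X := by
          have h1 := F.le_max' i₁ (mem_of_mem_erase hi₁F)
          have h2 := ne_of_mem_erase hi₁F
          omega
        obtain ⟨b, hb⟩ : ∃ b, b = (W i₁).max' (hW1 i₁) := ⟨_, rfl⟩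
        have hbW : b ∈ W i₁ := by rw [hb]; exact max'_mem _ _
        have hall : ∀ i ∈ F.erase X, ∀ x ∈ W i, x ≤ b := by
          intro i hi x hx
          have h1 : i ≤ i₁ := (F.erase X).le_max' i hi
          rcases Nat.lt_or_ge i i₁ with h2 | h2
          · exact (hlt h2 x hx b hbW).le
          · have : i = i₁ := by omega
            rw [this] at hx
            rw [hb]
            exact le_max' _ x hx
        have hib : ∀ i ∈ F.erase X, i ≤ b := by
          intro i hi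
          obtain ⟨x, hx⟩ := hW1 i
          exact (Blk.ge hW i x hx).trans (hall i hi x hx)
        have hjb : j ≤ b := (hjF i₁ (mem_of_mem_erase hi₁F)).trans (hib i₁ hi₁F)
        set S := ∑ j ∈ range (b + 1), ∑ x ∈ range (b + 1), t j x with hS
        have hle : ∀ i ∈ F.erase X, ∑ x ∈ W i, t j x ≤ 1 + S := by
          intro i hi
          have h1 : ∑ x ∈ W i, t j x ≤ ∑ x ∈ range (b + 1), t j x :=
            sum_le_sum_of_subset fun x hx => mem_range.2 (by have := hall i hi x hx; omega)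
          have h2 : ∑ x ∈ range (b + 1), t j x ≤ S :=
            single_le_sum (f := fun j => ∑ x ∈ range (b + 1), t j x) (fun _ _ => Nat.zero_le _)
              (mem_range.2 (by omega))
          omega
        have hcard : (F.erase X).card ≤ b + 1 := by
          calc (F.erase X).card ≤ (range (b + 1)).card :=
                card_le_card fun i hi => mem_range.2 (by have := hib i hi; omega)
            _ = b + 1 := card_range _
        have hcb : c ≤ hp t h b := by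
          calc c ≤ ∏ _i ∈ F.erase X, (1 + S) := by
                rw [hc]; exact prod_le_prod' hle
            _ = (1 + S) ^ (F.erase X).card := prod_const _
            _ ≤ (1 + S) ^ (b + 1) := Nat.pow_le_pow_right (by omega) hcard
            _ ≤ hp t h b := by unfold hp; rw [← hS]; omega
        have h1b : 1 ≤ hp t h b := by unfold hp; omega
        exact ⟨i₁, b, hbW, h1b, h1b, fun _ _ => hcb,
          fun i' hi' => by rw [mem_singleton] at hi'; omega⟩
    have h2 := hmain j 1 1 (fun _ => c) le_rfl (fun _ _ => hc1) (fun _ => {X})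
      (fun _ _ => singleton_nonempty X)
      (fun _ _ i hi => by rw [mem_singleton] at hi; rw [hi]; exact hjF X hXF)
      (fun r hr => by omega) hcc
    refine (exactChain_of (hd j) (had j) (h1 j) hW h2).congr fun u _ => ?_
    rw [hprod]
    simp
  · intro j k m c hm hc F hF1 hF2 hF3 hadm
    obtain ⟨i, b, hb, hb1, hb2, hb3, hb4⟩ := hadm
    have hle : h b ≤ hp t h b := by unfold hp; omega
    exact exactChain_of (hd j) (had j) (h1 j) hW (hmain j k m c hm hc F hF1 hF2 hF3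
      (Or.inr ⟨i, b, hb, hb1.trans hle, hb2.trans hle, fun l hl => (hb3 l hl).trans hle, hb4⟩))

end Pool.Agent.Run7.h965.MT
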