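import Pool.Agent.Run7.h965.MT.Exists
import Pool.Agent.W68.GapMain

/-!
Milliken-Taylor systems in countably many additive families of affine maps.
-/

set_option autoImplicit false

namespace Pool.Agent.Run7.h965.MT

open Finset Pool.Agent.H752R3.MT Pool.Agent.W68.Mil Pool.Agent.W68.Her

variable {M : ℕ → Type} [∀ j, AddCommMonoid (M j)]

/-- the code of the parameters -/
def cod (j k m : ℕ) (c : ℕ → ℕ) : ℕ :=
  Encodable.encode (j, k, (List.range m).map fun l => c l - 1)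

/-- the coefficients of a list -/
def cf (L : List ℕ) (l : ℕ) : ℕ := L.getD l 0 + 1

theorem stp_congr_c {N : Type} [AddCommMonoid N] {v : ℕ → N} {m k : ℕ} {c c' : ℕ → ℕ}
    (h : ∀ l < m, c' l = c l) {Z : ℕ → Finset ℕ} {u : ℕ} :
    stp v m k c' Z u = stp v m k c Z u := by
  unfold stp
  refine sum_congr rfl fun l hl => ?_
  rw [h l (mem_range.1 hl)]

theorem Ex.congr_c {N : Type} [AddCommMonoid N] (A : Fam N) {v : ℕ → N} {m k : ℕ} {c c' : ℕ → ℕ}
    (h : ∀ l < m, c' l = c l) {Z : ℕ → Finset ℕ} (hE : Ex A v m k c Z) : Ex A v m k c' Z := by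
  unfold Ex at *
  have e : (fun u => A.Φ (pos v m k c' Z u)) '' Set.Iic k =
      (fun u => A.Φ (pos v m k c Z u)) '' Set.Iic k :=
    Set.image_congr fun u _ => by
      unfold pos
      rw [sum_congr rfl fun u' _ => stp_congr_c h]
  rwa [e]

theorem main_all (A : ∀ j, Fam (M j)) (v : ∀ j, ℕ → M j) (hv : ∀ j a, 1 ≤ (A j).σ (v j a)) :
    ∃ W, Blk W ∧ ∀ (j k m : ℕ) (c : ℕ → ℕ), 1 ≤ m → (∀ l < m, 1 ≤ c l) →
      ∀ Z, Blk Z → Le Z (fun i => W (cod j k m c + i)) → Ex (A j) (v j) m k c Z := by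
  classical
  obtain ⟨W, hW, hWg⟩ := closed_families
    (fun t Z =>
      Ex (A (Denumerable.ofNat (ℕ × ℕ × List ℕ) t).1) (v (Denumerable.ofNat (ℕ × ℕ × List ℕ) t).1)
        (max 1 (Denumerable.ofNat (ℕ × ℕ × List ℕ) t).2.2.length)
        (Denumerable.ofNat (ℕ × ℕ × List ℕ) t).2.1
        (cf (Denumerable.ofNat (ℕ × ℕ × List ℕ) t).2.2) Z)
    (fun t Z hZ hg => ⟨_, fun Z' _ hZZ hE => hg (Ex.congr _ (fun i hi => (hZZ i hi).symm) hE)⟩)
    (fun t X hX => exists_ex _ (hv _) (le_max_left _ _) (fun l => by unfold cf; omega) X hX)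
  refine ⟨W, hW, fun j k m c hm hc Z hZ hZW => ?_⟩
  have h1 := hWg (cod j k m c) Z hZ hZW
  unfold cod at h1
  rw [Denumerable.ofNat_encode] at h1
  simp only [List.length_map, List.length_range] at h1
  rw [max_eq_right hm] at h1
  refine Ex.congr_c _ (fun l hl => ?_) h1
  unfold cf
  rw [List.getD_eq_getElem?_getD, List.getElem?_map, List.getElem?_range hl]
  have := hc l hl
  simp
  omega

theorem le_tail' {W : ℕ → Finset ℕ} {j : ℕ} {G : ℕ → Finset ℕ} (hG : Blk G)
    (hG3 : ∀ l, ∀ i ∈ G l, j ≤ i) : Le (fun l => (G l).biUnion W) (fun i => W (j + i)) := by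
  classical
  intro l
  refine ⟨(G l).image (fun i => i - j), (hG.1 l).image _, ?_⟩
  rw [Finset.image_biUnion]
  refine Finset.biUnion_congr rfl fun i hi => ?_
  have := hG3 l i hi
  congr 1
  omega

/-- the statement on chains -/
theorem main_chain (A : ∀ j, Fam (M j)) (v : ∀ j, ℕ → M j) (hv : ∀ j a, 1 ≤ (A j).σ (v j a)) :
    ∃ W, Blk W ∧ ∀ (j k m : ℕ) (c : ℕ → ℕ), 1 ≤ m → (∀ l < m, 1 ≤ c l) →
      ∀ F : ℕ → Finset ℕ, (∀ t < m * k, (F t).Nonempty) →
        (∀ t < m * k, ∀ i ∈ F t, cod j k m c ≤ i) →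
        (∀ t, t + 1 < m * k → ∀ i ∈ F t, ∀ i' ∈ F (t + 1), i < i') →
        Ex (A j) (v j) m k c (fun t => (F t).biUnion W) := by
  obtain ⟨W, hW, hWg⟩ := main_all A v hv
  refine ⟨W, hW, fun j k m c hm hc F h1 h2 h3 => ?_⟩
  obtain ⟨G, hG1, hG2, hG3, -⟩ := Pool.Agent.W68.Gap.extend (cod j k m c) (m * k) F h1 h2 h3 0
  have h4 := hWg j k m c hm hc (fun t => (G t).biUnion W) (hG1.comp hW) (le_tail' hG1 hG3)
  refine Ex.congr _ (fun i hi => ?_) h4
  rw [hG2 i hi]

/-- the sum of the values of a function up to `N` -/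
def tot (h : ℕ → ℕ) (N : ℕ) : ℕ := ∑ b ∈ range (N + 1), h b

theorem le_tot (h : ℕ → ℕ) {b N : ℕ} (hb : b ≤ N) : h b ≤ tot h N :=
  single_le_sum (f := h) (fun _ _ => Nat.zero_le _) (mem_range.2 (by omega))

/-- a bound for the codes -/
def bet (n : ℕ) : ℕ :=
  ∑ j ∈ range (n + 1), ∑ k ∈ range (n + 1), ∑ m ∈ range (n + 1), ∑ g : Fin n → Fin (n + 1),
    cod j k m (fun l => if h : l < n then (g ⟨l, h⟩ : ℕ) else 0)

theorem le_bet {n j k m : ℕ} {c : ℕ → ℕ} (hj : j ≤ n) (hk : k ≤ n) (hm : m ≤ n)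
    (hc : ∀ l < m, c l ≤ n) : cod j k m c ≤ bet n := by
  classical
  obtain ⟨g, hg⟩ : ∃ g : Fin n → Fin (n + 1), ∀ l (h : l < m),
      ((g ⟨l, by omega⟩ : Fin (n + 1)) : ℕ) = c l := by
    refine ⟨fun l => if h : (l : ℕ) < m then ⟨c l, by have := hc l h; omega⟩ else 0, fun l h => ?_⟩
    simp only
    rw [dif_pos h]
  have e : cod j k m c = cod j k m (fun l => if h : l < n then (g ⟨l, h⟩ : ℕ) else 0) := by
    unfold cod
    congr 3
    refine List.map_congr_left fun l hl => ?_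
    have hl' := List.mem_range.1 hl
    beta_reduce
    rw [dif_pos (by omega : l < n), hg l hl']
  rw [e]
  unfold bet
  calc cod j k m (fun l => if h : l < n then (g ⟨l, h⟩ : ℕ) else 0)
      ≤ ∑ g : Fin n → Fin (n + 1), cod j k m (fun l => if h : l < n then (g ⟨l, h⟩ : ℕ) else 0) :=
        single_le_sum (f := fun g : Fin n → Fin (n + 1) =>
          cod j k m (fun l => if h : l < n then (g ⟨l, h⟩ : ℕ) else 0))
          (fun _ _ => Nat.zero_le _) (mem_univ g)
    _ ≤ ∑ m ∈ range (n + 1), ∑ g : Fin n → Fin (n + 1),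
          cod j k m (fun l => if h : l < n then (g ⟨l, h⟩ : ℕ) else 0) :=
        single_le_sum (f := fun m => ∑ g : Fin n → Fin (n + 1),
          cod j k m (fun l => if h : l < n then (g ⟨l, h⟩ : ℕ) else 0))
          (fun _ _ => Nat.zero_le _) (mem_range.2 (by omega))
    _ ≤ ∑ k ∈ range (n + 1), ∑ m ∈ range (n + 1), ∑ g : Fin n → Fin (n + 1),
          cod j k m (fun l => if h : l < n then (g ⟨l, h⟩ : ℕ) else 0) :=
        single_le_sum (f := fun k => ∑ m ∈ range (n + 1), ∑ g : Fin n → Fin (n + 1),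
          cod j k m (fun l => if h : l < n then (g ⟨l, h⟩ : ℕ) else 0))
          (fun _ _ => Nat.zero_le _) (mem_range.2 (by omega))
    _ ≤ _ :=
        single_le_sum (f := fun j => ∑ k ∈ range (n + 1), ∑ m ∈ range (n + 1),
          ∑ g : Fin n → Fin (n + 1),
          cod j k m (fun l => if h : l < n then (g ⟨l, h⟩ : ℕ) else 0))
          (fun _ _ => Nat.zero_le _) (mem_range.2 (by omega))

/-- the thinned indices -/
def nu (h : ℕ → ℕ) (W : ℕ → Finset ℕ) : ℕ → ℕ
  | 0 => bet 1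
  | i + 1 => nu h W i + 1 + bet (i + 2 + tot h ((W (nu h W i)).sup id))

theorem nu_mono (h : ℕ → ℕ) (W : ℕ → Finset ℕ) : StrictMono (nu h W) :=
  strictMono_nat_of_lt_succ fun i => by rw [nu]; omega

/-- the parameters which are admitted for systems beyond the block number `i` -/
def Adm (h : ℕ → ℕ) (W : ℕ → Finset ℕ) (k m : ℕ) (c : ℕ → ℕ) (G : Finset ℕ) : Prop :=
  (m = 1 ∧ k = 1 ∧ c 0 = 1) ∨
    ∃ i, ∃ b ∈ W i, m ≤ h b ∧ k ≤ h b ∧ (∀ l < m, c l ≤ h b) ∧ ∀ i' ∈ G, i < i'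

theorem main_thin (A : ∀ j, Fam (M j)) (v : ∀ j, ℕ → M j) (hv : ∀ j a, 1 ≤ (A j).σ (v j a))
    (h : ℕ → ℕ) :
    ∃ W, Blk W ∧ ∀ (j k m : ℕ) (c : ℕ → ℕ), 1 ≤ m → (∀ l < m, 1 ≤ c l) →
      ∀ F : ℕ → Finset ℕ, (∀ t < m * k, (F t).Nonempty) → (∀ t < m * k, ∀ i ∈ F t, j ≤ i) →
        (∀ t, t + 1 < m * k → ∀ i ∈ F t, ∀ i' ∈ F (t + 1), i < i') →
        Adm h W k m c (F 0) →
        Ex (A j) (v j) m k c (fun t => (F t).biUnion W) := by
  classical
  obtain ⟨W₀, hW₀, hmain⟩ := main_chain A v hv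
  set ν := nu h W₀ with hν
  have hνm : StrictMono ν := nu_mono h W₀
  refine ⟨fun i => W₀ (ν i), Blk.reindex hW₀ hνm, ?_⟩
  intro j k m c hm hc F hF1 hF2 hF3 hadm
  have hbig : ∀ t < m * k, ∀ i ∈ F t, cod j k m c ≤ ν i := by
    have h0 : 0 < m * k → ∀ i ∈ F 0, cod j k m c ≤ ν i := by
      intro hk i hi
      have hji : j ≤ i := hF2 0 hk i hi
      rcases hadm with ⟨hm1, hk1, hc1⟩ | ⟨i₁, b, hb, hmb, hkb, hcb, hi₁⟩
      · have hcl : ∀ l < m, c l ≤ 1 := fun l hl => by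
          have : l = 0 := by omega
          rw [this, hc1]
        rcases i with _ | i
        · exact le_bet (by omega) (by omega) (by omega) hcl
        · have h1 : cod j k m c ≤ bet (i + 2 + tot h ((W₀ (ν i)).sup id)) :=
            le_bet (by omega) (by omega) (by omega) fun l hl => by have := hcl l hl; omega
          rw [hν, nu]
          rw [hν] at h1
          omega
      · have h1 := hi₁ i hi
        obtain ⟨i₀, rfl⟩ : ∃ i₀, i = i₀ + 1 := ⟨i - 1, by omega⟩
        have h2 : b ≤ (W₀ (ν i₀)).sup id := by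
          rcases Nat.lt_or_ge i₁ i₀ with h3 | h3
          · obtain ⟨b', hb'⟩ := hW₀.1 (ν i₀)
            have h4 := hW₀.lt (hνm h3) b hb b' hb'
            exact h4.le.trans (Finset.le_sup (f := id) hb')
          · have : i₁ = i₀ := by omega
            rw [← this]
            exact Finset.le_sup (f := id) hb
        have h3 : h b ≤ tot h ((W₀ (ν i₀)).sup id) := le_tot h h2
        have h4 : cod j k m c ≤ bet (i₀ + 2 + tot h ((W₀ (ν i₀)).sup id)) :=
          le_bet (by omega) (by omega) (by omega) fun l hl => by have := hcb l hl; omega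
        rw [hν, nu]
        rw [hν] at h4
        omega
    intro t
    induction t with
    | zero => exact h0
    | succ t ih =>
      intro ht i hi
      obtain ⟨i', hi'⟩ := hF1 t (by omega)
      have h1 := ih (by omega) i' hi'
      have h2 := hF3 t ht i' hi' i hi
      exact h1.trans (hνm h2).le
  have h1 := hmain j k m c hm hc (fun t => (F t).image ν) (fun t ht => (hF1 t ht).image ν)
    (by
      intro t ht i hi
      obtain ⟨i', hi', rfl⟩ := mem_image.1 hi
      exact hbig t ht i' hi')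
    (by
      intro t ht i hi i' hi'
      obtain ⟨x, hx, rfl⟩ := mem_image.1 hi
      obtain ⟨x', hx', rfl⟩ := mem_image.1 hi'
      exact hνm (hF3 t ht x hx x' hx'))
  have e : (fun t => ((F t).image ν).biUnion W₀) = fun t => (F t).biUnion fun i => W₀ (ν i) := by
    funext t
    rw [Finset.image_biUnion]
  rwa [e] at h1

end Pool.Agent.Run7.h965.MT
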