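import Pool.Agent.Run7.h965.MT.Iter

/-!
Multipliers: the maps `q ↦ c + m (q - c)`.
-/

set_option autoImplicit false

namespace Pool.Agent.Run7.h965.MT

open Finset Pool.Agent.H752R3.MT Pool.Agent.W68.Mil Pool.Agent.W68.Her

/-- the pair `(A, D)` for which `A + D q = c + m (q - c)` -/
def cen (c : ℤ) (m : ℕ) : ℤ × ℤ := (c * (1 - m), m)

/-- the product of powers of the multipliers -/
def mu (μ : ℕ → ℕ) (x : ℕ →₀ ℕ) : ℕ := x.prod fun a n => μ a ^ n

theorem mu_zero (μ : ℕ → ℕ) : mu μ 0 = 1 := Finsupp.prod_zero_index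

theorem mu_add (μ : ℕ → ℕ) (x y : ℕ →₀ ℕ) : mu μ (x + y) = mu μ x * mu μ y :=
  Finsupp.prod_add_index' (fun _ => pow_zero _) (fun _ _ _ => pow_add _ _ _)

theorem mu_single (μ : ℕ → ℕ) (a : ℕ) : mu μ (Finsupp.single a 1) = μ a := by
  unfold mu
  rw [Finsupp.prod_single_index (h := fun a n => μ a ^ n) (pow_zero _), pow_one]

theorem mu_pos {μ : ℕ → ℕ} (hμ : ∀ a, 2 ≤ μ a) (x : ℕ →₀ ℕ) : 1 ≤ mu μ x := by
  unfold mu Finsupp.prod
  exact Nat.succ_le_of_lt (prod_pos fun a _ => pow_pos (by have := hμ a; omega) _)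

theorem mu_nsmul (μ : ℕ → ℕ) (n : ℕ) (x : ℕ →₀ ℕ) : mu μ (n • x) = mu μ x ^ n := by
  induction n with
  | zero => rw [zero_nsmul, mu_zero, pow_zero]
  | succ n ih => rw [succ_nsmul, mu_add, ih, pow_succ]

theorem mu_sum {ι : Type} (μ : ℕ → ℕ) (s : Finset ι) (f : ι → ℕ →₀ ℕ) :
    mu μ (∑ i ∈ s, f i) = ∏ i ∈ s, mu μ (f i) := by
  classical
  induction s using Finset.induction_on with
  | empty => simp [mu_zero]
  | insert a s ha ih => rw [sum_insert ha, prod_insert ha, mu_add, ih]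

/-- the degree -/
def dg (x : ℕ →₀ ℕ) : ℕ := x.sum fun _ n => n

theorem dg_zero : dg 0 = 0 := Finsupp.sum_zero_index

theorem dg_add (x y : ℕ →₀ ℕ) : dg (x + y) = dg x + dg y :=
  Finsupp.sum_add_index' (fun _ => rfl) (fun _ _ _ => rfl)

theorem dg_single (a : ℕ) : dg (Finsupp.single a 1) = 1 := Finsupp.sum_single_index rfl

theorem two_pow_dg_le {μ : ℕ → ℕ} (hμ : ∀ a, 2 ≤ μ a) (x : ℕ →₀ ℕ) : 2 ^ dg x ≤ mu μ x := by
  unfold dg mu Finsupp.sum Finsupp.prod
  rw [← prod_pow_eq_pow_sum]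
  exact prod_le_prod' fun a _ => Nat.pow_le_pow_left (hμ a) _

theorem mu_coprime {μ : ℕ → ℕ} {c : ℤ} (hc : ∀ a, IsCoprime (μ a : ℤ) c) (x : ℕ →₀ ℕ) :
    IsCoprime (mu μ x : ℤ) c := by
  unfold mu Finsupp.prod
  push_cast
  exact IsCoprime.prod_left fun a _ => (hc a).pow_left

/-- the maps with the centre `c` -/
noncomputable def cenFam (μ : ℕ → ℕ) (hμ : ∀ a, 2 ≤ μ a) (c : ℤ)
    (hc : ∀ a, IsCoprime (μ a : ℤ) c) : Fam (ℕ →₀ ℕ) where
  Φ x := ((cen c (mu μ x)).2, (cen c (mu μ x)).1)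
  σ := dg
  map_zero := by simp [cen, mu_zero]
  map_add x y := by
    unfold cen
    rw [mu_add]
    simp only [Prod.mk.injEq]
    push_cast
    constructor <;> ring
  prim x := by
    unfold cen
    refine ⟨?_, ?_⟩
    · have := mu_pos hμ x
      simp only
      exact_mod_cast this
    · simp only
      apply IsCoprime.mul_right (mu_coprime hc x)
      exact ⟨1, 1, by ring⟩
  σ_zero := dg_zero
  σ_add := dg_add
  proper T := by
    refine ⟨T.sup fun f => f.1.natAbs, fun x hx => ?_⟩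
    have h2 := Finset.le_sup (f := fun f : ℤ × ℤ => f.1.natAbs) hx
    have h3 : mu μ x ≤ T.sup fun f => f.1.natAbs := by
      refine le_trans (le_of_eq ?_) h2
      simp [cen]
    exact ((Nat.lt_two_pow_self).le.trans (two_pow_dg_le hμ x)).trans h3

/-- exact chains of primes `q = q_0, q_1, …` with `q_(u+1) - c = m_u (q_u - c)` -/
def ExactMult (c : ℤ) (k : ℕ) (m : ℕ → ℕ) : Prop :=
  ∀ E : Finset (ℤ × ℤ), (∀ e ∈ E, 1 ≤ e.2) →
    {q : ℕ | q.Prime ∧ ∀ e ∈ E, ((∃ p : ℕ, p.Prime ∧ (p : ℤ) = e.1 + e.2 * q) ↔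
      ∃ u ≤ k, e = cen c (∏ u' ∈ range u, m u'))}.Infinite

theorem ExactMult.congr {c : ℤ} {k : ℕ} {s s' : ℕ → ℕ} (h : ExactMult c k s)
    (hs : ∀ u < k, s u = s' u) : ExactMult c k s' := by
  intro E hE
  refine (h E hE).mono ?_
  rintro q ⟨h1, h2⟩
  refine ⟨h1, fun e he => ?_⟩
  rw [h2 e he]
  have e : ∀ u ≤ k, ∏ u' ∈ range u, s u' = ∏ u' ∈ range u, s' u' := by
    intro u hu
    exact prod_congr rfl fun u' hu' => hs u' (by have := mem_range.1 hu'; omega)
  constructor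
  · rintro ⟨u, hu, h3⟩; exact ⟨u, hu, by rw [h3, e u hu]⟩
  · rintro ⟨u, hu, h3⟩; exact ⟨u, hu, by rw [h3, e u hu]⟩

/-- infinitely many primes `q` with `c + m (q - c)` prime -/
theorem ExactMult.inf {c : ℤ} {k : ℕ} {s : ℕ → ℕ} (hs : 1 ≤ s 0)
    (h : ExactMult c (k + 1) s) :
    {q : ℕ | q.Prime ∧ ∃ p : ℕ, p.Prime ∧ (p : ℤ) - c = s 0 * (q - c)}.Infinite := by
  refine (h {cen c (s 0)} (by
    intro e he
    rw [mem_singleton] at he
    rw [he]
    unfold cen
    simp only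
    exact_mod_cast hs)).mono ?_
  rintro q ⟨h1, h2⟩
  obtain ⟨p, hp, h3⟩ := (h2 _ (mem_singleton_self _)).2 ⟨1, by omega, by simp⟩
  refine ⟨h1, p, hp, ?_⟩
  rw [h3]
  unfold cen
  simp only
  ring

theorem exactMult_of {μ : ℕ → ℕ} (hμ : ∀ a, 2 ≤ μ a) {c : ℤ}
    (hc : ∀ a, IsCoprime (μ a : ℤ) c) {m k : ℕ} {g : ℕ → ℕ} {W F : ℕ → Finset ℕ} (hW : Blk W)
    (hE : Ex (cenFam μ hμ c hc) (fun a => Finsupp.single a 1) m k g
      (fun t => (F t).biUnion W)) :
    ExactMult c k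
      (fun u => ∏ l ∈ range m, (∏ i ∈ F (l * k + u), ∏ x ∈ W i, μ x) ^ g l) := by
  classical
  intro E hE1
  have h2 := hE (insert (1, 0) (E.image fun e => (e.2, e.1))) (by
    intro f hf
    rcases mem_insert.1 hf with h3 | h3
    · rw [h3]
    · obtain ⟨e, he, rfl⟩ := mem_image.1 h3
      exact hE1 e he)
  have hpos : ∀ u, mu μ (pos (fun a => Finsupp.single a 1) m k g (fun t => (F t).biUnion W) u) =
      ∏ u' ∈ range u, ∏ l ∈ range m, (∏ i ∈ F (l * k + u'), ∏ x ∈ W i, μ x) ^ g l := by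
    intro u
    unfold pos stp
    rw [mu_sum]
    refine prod_congr rfl fun u' _ => ?_
    rw [mu_sum]
    refine prod_congr rfl fun l _ => ?_
    rw [mu_nsmul, sum_union hW, mu_sum]
    congr 1
    refine prod_congr rfl fun i _ => ?_
    rw [mu_sum]
    exact prod_congr rfl fun x _ => mu_single μ x
  refine h2.mono ?_
  intro q hq
  constructor
  · have h3 := hq (1, 0) (mem_insert_self _ _)
    simp only [one_mul, add_zero, Int.toNat_natCast] at h3
    rw [h3]
    refine ⟨0, Nat.zero_le _, ?_⟩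
    show (cenFam μ hμ c hc).Φ (pos (fun a => Finsupp.single a 1) m k g
      (fun t => (F t).biUnion W) 0) = (1, 0)
    unfold pos
    rw [sum_range_zero]
    exact (cenFam μ hμ c hc).map_zero
  · intro e he
    have h3 := hq (e.2, e.1) (mem_insert_of_mem (mem_image_of_mem _ he))
    rw [prime_toNat_iff] at h3
    have e1 : (∃ p : ℕ, p.Prime ∧ (p : ℤ) = e.1 + e.2 * q) ↔
        ∃ p : ℕ, p.Prime ∧ ((e.2, e.1) : ℤ × ℤ).1 * (q : ℤ) + ((e.2, e.1) : ℤ × ℤ).2 = p := by
      simp only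
      constructor
      · rintro ⟨p, hp, h4⟩; exact ⟨p, hp, by rw [h4]; ring⟩
      · rintro ⟨p, hp, h4⟩; exact ⟨p, hp, by rw [← h4]; ring⟩
    rw [e1, h3]
    simp only [Set.mem_image, Set.mem_Iic]
    constructor
    · rintro ⟨u, hu, h4⟩
      refine ⟨u, hu, ?_⟩
      have h5 : ((cen c (mu μ _)).2, (cen c (mu μ _)).1) = (e.2, e.1) := h4
      rw [hpos] at h5
      obtain ⟨e2, e3⟩ := Prod.mk.inj h5
      exact Prod.ext e3.symm e2.symm
    · rintro ⟨u, hu, h4⟩
      refine ⟨u, hu, ?_⟩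
      show ((cen c (mu μ _)).2, (cen c (mu μ _)).1) = (e.2, e.1)
      rw [hpos, h4]

/-- power towers: `tow [x, y, z] = x ^ (y ^ z)` -/
def tow : List ℕ → ℕ
  | [] => 1
  | x :: l => x ^ tow l

/-- iterated powers -/
def tb (P : ℕ) : ℕ → ℕ
  | 0 => 1
  | n + 1 => P ^ tb P n

theorem tb_mono {P : ℕ} (hP : 1 ≤ P) : Monotone (tb P) := by
  refine monotone_nat_of_le_succ fun n => ?_
  induction n with
  | zero => exact Nat.one_le_pow _ _ hP
  | succ n ih => exact Nat.pow_le_pow_right hP ih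

theorem tow_le {P : ℕ} (hP : 1 ≤ P) : ∀ l : List ℕ, (∀ x ∈ l, x ≤ P) → tow l ≤ tb P l.length := by
  intro l
  induction l with
  | nil => intro _; exact le_rfl
  | cons x l ih =>
    intro h
    have h1 := ih fun y hy => h y (List.mem_cons_of_mem _ hy)
    calc tow (x :: l) = x ^ tow l := rfl
      _ ≤ P ^ tow l := Nat.pow_le_pow_left (h x List.mem_cons_self) _
      _ ≤ P ^ tb P l.length := Nat.pow_le_pow_right hP h1

theorem tow_pos : ∀ l : List ℕ, (∀ x ∈ l, 1 ≤ x) → 1 ≤ tow l := by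
  intro l
  induction l with
  | nil => intro _; exact le_rfl
  | cons x l ih =>
    intro h
    exact Nat.one_le_pow _ _ (h x List.mem_cons_self)

/-- bounds for the towers -/
def hq (μ : ℕ → ℕ → ℕ) (h : ℕ → ℕ) (N : ℕ) : ℕ :=
  1 + h N + tb (∏ j ∈ range (N + 1), ∏ x ∈ range (N + 1), μ j x) (N + 1)

theorem main_mult (μ : ℕ → ℕ → ℕ) (hμ : ∀ j a, 2 ≤ μ j a) (c : ℕ → ℤ)
    (hc : ∀ j a, IsCoprime (μ j a : ℤ) (c j)) (h : ℕ → ℕ) :
    ∃ W : ℕ → Finset ℕ, (∀ i, (W i).Nonempty) ∧ (∀ i, ∀ x ∈ W i, ∀ y ∈ W (i + 1), x < y) ∧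
      (∀ (j : ℕ) (F : Finset ℕ), F.Nonempty → (∀ i ∈ F, j ≤ i) →
        ExactMult (c j) 1 (fun _ => ∏ i ∈ F, ∏ x ∈ W i, μ j x) ∧
        ExactMult (c j) 1 (fun _ => tow ((F.sort (· ≥ ·)).map fun i => ∏ x ∈ W i, μ j x))) ∧
      ∀ (j k m : ℕ) (g : ℕ → ℕ), 1 ≤ m → (∀ l < m, 1 ≤ g l) →
        ∀ F : ℕ → Finset ℕ, (∀ r < m * k, (F r).Nonempty) → (∀ r < m * k, ∀ i ∈ F r, j ≤ i) →
          (∀ r, r + 1 < m * k → ∀ i ∈ F r, ∀ i' ∈ F (r + 1), i < i') →
          (∃ i, ∃ b ∈ W i, m ≤ h b ∧ k ≤ h b ∧ (∀ l < m, g l ≤ h b) ∧ ∀ i' ∈ F 0, i < i') →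
          ExactMult (c j) k
            (fun u => ∏ l ∈ range m, (∏ i ∈ F (l * k + u), ∏ x ∈ W i, μ j x) ^ g l) := by
  classical
  obtain ⟨W, hW, hmain⟩ := main_thin (M := fun _ => ℕ →₀ ℕ)
    (fun j => cenFam (μ j) (hμ j) (c j) (hc j)) (fun _ a => Finsupp.single a 1)
    (fun j x => (dg_single x).ge) (hq μ h)
  have hW1 := hW.1
  have hlt : ∀ {i j : ℕ}, i < j → ∀ a ∈ W i, ∀ b ∈ W j, a < b := fun hij => hW.lt hij
  have hμ1 : ∀ j x, 1 ≤ μ j x := fun j x => by have := hμ j x; omega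
  refine ⟨W, hW.1, hW.2, fun j F hF hjF => ⟨?_, ?_⟩, ?_⟩
  · have h2 := hmain j 1 1 (fun _ => 1) le_rfl (fun _ _ => le_rfl) (fun _ => F) (fun _ _ => hF)
      (fun _ _ => hjF) (fun r hr => by omega) (Or.inl ⟨rfl, rfl, rfl⟩)
    exact (exactMult_of (hμ j) (hc j) hW h2).congr fun u _ => by simp
  · set X := F.max' hF with hX
    have hXF : X ∈ F := F.max'_mem hF
    obtain ⟨L, hL⟩ : ∃ L : List ℕ, L = ((F.erase X).sort (· ≥ ·)).map fun i => ∏ x ∈ W i, μ j x :=
      ⟨_, rfl⟩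
    have hsort : F.sort (· ≥ ·) = X :: (F.erase X).sort (· ≥ ·) := by
      have h1 := Finset.sort_insert (r := (· ≥ ·)) (a := X) (s := F.erase X)
        (fun b hb => F.le_max' b (mem_of_mem_erase hb)) (notMem_erase X F)
      rwa [insert_erase hXF] at h1
    obtain ⟨e, he⟩ : ∃ e, e = tow L := ⟨_, rfl⟩
    have hL1 : ∀ y ∈ L, 1 ≤ y := by
      intro y hy
      rw [hL] at hy
      obtain ⟨i, _, rfl⟩ := List.mem_map.1 hy
      exact Nat.succ_le_of_lt (prod_pos fun x _ => hμ1 j x)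
    have he1 : 1 ≤ e := by rw [he]; exact tow_pos L hL1
    have hcc : Adm (hq μ h) W 1 1 (fun _ => e) {X} := by
      rcases (F.erase X).eq_empty_or_nonempty with hem | hne
      · left
        refine ⟨rfl, rfl, ?_⟩
        beta_reduce
        rw [he, hL, hem, Finset.sort_empty]
        rfl
      · right
        set i₁ := (F.erase X).max' hne with hi₁
        have hi₁F : i₁ ∈ F.erase X := (F.erase X).max'_mem hne
        have hi₁M : i₁ < X := by
          have h1 := F.le_max' i₁ (mem_of_mem_erase hi₁F)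
          have h2 := ne_of_mem_erase hi₁F
          omega
        obtain ⟨b, hb⟩ : ∃ b, b = (W i₁).max' (hW1 i₁) := ⟨_, rfl⟩
        have hbW : b ∈ W i₁ := by rw [hb]; exact max'_mem _ _
        have hall : ∀ i ∈ F.erase X, ∀ x ∈ W i, x ≤ b := by
          intro i hi x hx
          have h1 : i ≤ i₁ := (F.erase X).le_max' i hi
          rcases Nat.lt_or_ge i i₁ with h2 | h2
          · exact (hlt h2 x hx b hbW).le
          · have : i = i₁ := by omega
            rw [this] at hx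
            rw [hb]
            exact le_max' _ x hx
        have hib : ∀ i ∈ F.erase X, i ≤ b := by
          intro i hi
          obtain ⟨x, hx⟩ := hW1 i
          exact (Blk.ge hW i x hx).trans (hall i hi x hx)
        have hjb : j ≤ b := (hjF i₁ (mem_of_mem_erase hi₁F)).trans (hib i₁ hi₁F)
        set P := ∏ j ∈ range (b + 1), ∏ x ∈ range (b + 1), μ j x with hP
        have hP1 : 1 ≤ P := Nat.succ_le_of_lt (prod_pos fun j _ => prod_pos fun x _ => hμ1 j x)
        have hle : ∀ y ∈ L, y ≤ P := by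
          intro y hy
          rw [hL] at hy
          obtain ⟨i, hi, rfl⟩ := List.mem_map.1 hy
          rw [Finset.mem_sort] at hi
          have h1 : ∏ x ∈ W i, μ j x ≤ ∏ x ∈ range (b + 1), μ j x :=
            prod_le_prod_of_subset_of_one_le'
              (fun x hx => mem_range.2 (by have := hall i hi x hx; omega))
              (fun x _ _ => hμ1 j x)
          have h2 : ∏ x ∈ range (b + 1), μ j x ≤ P :=
            Nat.le_of_dvd hP1 (dvd_prod_of_mem (fun j => ∏ x ∈ range (b + 1), μ j x)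
              (mem_range.2 (by omega)))
          exact h1.trans h2
        have hlen : L.length ≤ b + 1 := by
          rw [hL, List.length_map, Finset.length_sort]
          calc (F.erase X).card ≤ (range (b + 1)).card :=
                card_le_card fun i hi => mem_range.2 (by have := hib i hi; omega)
            _ = b + 1 := card_range _
        have heb : e ≤ hq μ h b := by
          calc e ≤ tb P L.length := by rw [he]; exact tow_le hP1 L hle
            _ ≤ tb P (b + 1) := tb_mono hP1 hlen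
            _ ≤ hq μ h b := by unfold hq; rw [← hP]; omega
        have h1b : 1 ≤ hq μ h b := by unfold hq; omega
        exact ⟨i₁, b, hbW, h1b, h1b, fun _ _ => heb,
          fun i' hi' => by rw [mem_singleton] at hi'; omega⟩
    have h2 := hmain j 1 1 (fun _ => e) le_rfl (fun _ _ => he1) (fun _ => {X})
      (fun _ _ => singleton_nonempty X)
      (fun _ _ i hi => by rw [mem_singleton] at hi; rw [hi]; exact hjF X hXF)
      (fun r hr => by omega) hcc
    refine (exactMult_of (hμ j) (hc j) hW h2).congr fun u _ => ?_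
    rw [hsort, List.map_cons, ← hL]
    simp only [tow, range_one, prod_singleton]
    rw [he]
  · intro j k m g hm hg F hF1 hF2 hF3 hadm
    obtain ⟨i, b, hb, hb1, hb2, hb3, hb4⟩ := hadm
    have hle : h b ≤ hq μ h b := by unfold hq; omega
    exact exactMult_of (hμ j) (hc j) hW (hmain j k m g hm hg F hF1 hF2 hF3
      (Or.inr ⟨i, b, hb, hb1.trans hle, hb2.trans hle, fun l hl => (hb3 l hl).trans hle, hb4⟩))

end Pool.Agent.Run7.h965.MT
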